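import Pool.Agent.H49.CE.Foc
import Pool.Agent.H49.CE.NonFlat
import Pool.Agent.H49.CE.Top

/-!
# A totally focal submanifold that is not isoparametric

The surface `M = {(z², t z) : |z| = 1, t ∈ ℝ}` in `ℂ² = ℝ⁴` (a Moebius band, closed in `ℝ⁴`) is totally focal: for
`a = (α, β)` the squared distance from `a` has, on `M`, exactly two critical points, both nondegenerate, if
`4 α + β² ≠ 0`, and a circle of degenerate critical points if `4 α + β² = 0`. Its normal bundle is not flat, so `M` is not
isoparametric.
-/

set_option autoImplicit false

namespace Pool.Agent.Results.MP_8c25d2_gt.NotIsoparametric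

open Pool.Agent.H49.CE

/-- The surface `{(z², t z) : |z| = 1, t ∈ ℝ}` of `ℂ² = ℝ⁴` is a closed connected embedded smooth submanifold of
dimension `2`, it is totally focal, and it is not isoparametric. -/
theorem result : IsClosed (Set.range surf) ∧ IsConnected (Set.range surf) ∧
    IsSubmanifold 2 (Set.range surf) ∧ TotallyFocal 2 (Set.range surf) ∧
    ¬ Isoparametric 2 (Set.range surf) :=
  ⟨isClosed_surf, isConnected_surf, isSubmanifold_surf, totallyFocal_surf,
    fun h => not_flat h.1⟩

end Pool.Agent.Results.MP_8c25d2_gt.NotIsoparametric
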